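import Pool.Agent.N818.IL.Stm
import Pool.Agent.N73.SN.J

/-!
# IL-IU (helper371): the number of the solutions of the linear systems

The rows of the matrix `MC` of helper73 are independent if `n ≡ 3 mod 4` and `Qc n`, so that an affine system for the
rows in `R` has at most `2 ^ #(P \ R)` solutions.
-/

set_option autoImplicit false

open scoped Classical

namespace Pool.Agent.N371.IL

open Finset
open Pool.Agent.N73.SN (z2_cases z2_self z2_sq count card_sets cardeq lg lg_eq_zero lg_mul not_dvd_prod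
  lg_prod isSquare_iff ee lg_neg_one not_dvd_nat lg_recip lg_st MB MC sum_MB row_MB sum_MC
  not_dvd_neg_one sum_sub exists_B card_filter_sub)
open Pool.Agent.N818.SN (st)
open Pool.Agent.N969.P15 (Qc)
open Pool.Agent.N818.IL (CI S_IU)

/-- The hypotheses on the set of the primes. -/
structure HQ (P : Finset ℕ) : Prop where
  pr : ∀ p ∈ P, p.Prime
  odd : ∀ p ∈ P, p % 2 = 1
  sum : ∑ p ∈ P, ee p = 1

variable {P : Finset ℕ}

lemma MB_symm (h : HQ P) {p q : ℕ} (hp : p ∈ P) (hq : q ∈ P) (hpq : p ≠ q) :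
    MB P p q = MB P q p + ee p * ee q := by
  rw [MB, if_neg hpq, MB, if_neg hpq.symm, lg_recip (h.pr p hp) (h.pr q hq) (h.odd p hp)
    (h.odd q hq) hpq, lg_st (h.pr q hq) (h.pr p hp) (h.odd q hq) hpq.symm, add_assoc, z2_self,
    add_zero]

lemma col_MB (h : HQ P) {q : ℕ} (hq : q ∈ P) : ∑ p ∈ P, MB P p q = 0 := by
  have h1 : ∑ p ∈ P.erase q, MB P p q = ∑ p ∈ P.erase q, (MB P q p + ee p * ee q) :=
    sum_congr rfl fun p hp => MB_symm h (mem_of_mem_erase hp) hq (ne_of_mem_erase hp)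
  have h2 := row_MB hq
  rw [← sum_erase_add P _ hq] at h2 ⊢
  have h3 : ∑ p ∈ P.erase q, ee p + ee q = 1 := by rw [sum_erase_add P _ hq, h.sum]
  rw [h1, sum_add_distrib, ← sum_mul]
  have h4 : (∑ p ∈ P.erase q, ee p) * ee q = 0 := by
    have h5 : ∑ p ∈ P.erase q, ee p = 1 - ee q := by linear_combination h3
    rw [h5, sub_mul, one_mul, z2_sq, sub_self]
  rw [h4, add_zero, h2]

lemma MC_eq (h : HQ P) {p q : ℕ} (hp : p ∈ P) (hq : q ∈ P) :
    MC P p q = MB P p q + ee p * ee q := by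
  by_cases hpq : p = q
  · subst hpq
    rw [MC, if_pos rfl, MB, if_pos rfl]
    have h1 : ∑ r ∈ P.erase p, lg (st r) p = ∑ r ∈ P.erase p, (lg (r : ℤ) p + ee r * ee p) :=
      sum_congr rfl fun r hr => lg_st (h.pr p hp) (h.pr r (mem_of_mem_erase hr)) (h.odd p hp)
        (ne_of_mem_erase hr).symm
    rw [h1, sum_add_distrib, ← sum_mul]
    have h3 : ∑ p ∈ P.erase p, ee p + ee p = 1 := by rw [sum_erase_add P _ hp, h.sum]
    have h5 : ∑ r ∈ P.erase p, ee r = 1 - ee p := by linear_combination h3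
    rw [h5, sub_mul, one_mul, z2_sq, sub_self, add_zero, add_comm]
  · rw [MC, if_neg hpq, MB, if_neg hpq, lg_st (h.pr p hp) (h.pr q hq) (h.odd p hp) hpq, add_assoc,
      mul_comm (ee q), z2_self, add_zero]

/-- The left kernel of the matrix. -/
lemma left_MB (h : HQ P) {n : ℕ} (hn : ∏ p ∈ P, p = n) (hQ : Qc n) {B : Finset ℕ} (hB : B ⊆ P)
    (h1 : ∀ q ∈ P, ∑ p ∈ B, MB P p q = 0) : B = ∅ ∨ B = P := by
  obtain ⟨b, hb⟩ : ∃ b, b = ∏ p ∈ B, p := ⟨_, rfl⟩
  obtain ⟨c, hc⟩ : ∃ c, c = ∏ p ∈ P \ B, p := ⟨_, rfl⟩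
  have hbc : b * c = n := by
    rw [hb, hc, mul_comm, prod_sdiff hB, hn]
  have hne : ∀ J : Finset ℕ, J ⊆ P → ∀ q, q.Prime → q ∣ ∏ p ∈ J, p → q ∈ J := by
    intro J hJ q hq h2
    obtain ⟨p, hp, h3⟩ := hq.prime.exists_mem_finset_dvd h2
    rw [(Nat.prime_dvd_prime_iff_eq hq (h.pr p (hJ hp))).1 h3]
    exact hp
  have hlg : ∀ J : Finset ℕ, J ⊆ P → ∀ q ∈ P, q ∉ J →
      lg ((∏ p ∈ J, p : ℕ) : ℤ) q = ∑ p ∈ J, MB P p q := by
    intro J hJ q hq hqJ
    have h2 : ∀ p ∈ J, q ≠ p := by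
      rintro p hp rfl
      exact hqJ hp
    rw [Nat.cast_prod, lg_prod (h.pr q hq) J (fun p => (p : ℤ)) fun p hp =>
      not_dvd_nat (h.pr q hq) (h.pr p (hJ hp)) (h2 p hp)]
    refine sum_congr rfl fun p hp => ?_
    rw [MB, if_neg (h2 p hp).symm, lg_recip (h.pr p (hJ hp)) (h.pr q hq) (h.odd p (hJ hp))
      (h.odd q hq) (h2 p hp).symm]
  have hb1 : ∀ J : Finset ℕ, J ⊆ P → ∏ p ∈ J, p = 1 → J = ∅ := by
    intro J hJ h2
    by_contra h3
    obtain ⟨p, hp⟩ := Finset.nonempty_iff_ne_empty.2 h3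
    have h4 : p ∣ 1 := by
      rw [← h2]
      exact dvd_prod_of_mem _ hp
    exact (h.pr p (hJ hp)).one_lt.ne' (Nat.dvd_one.1 h4)
  suffices hor : b = 1 ∨ c = 1 by
    rcases hor with h2 | h2
    · left
      exact hb1 B hB (by rw [← hb, h2])
    · right
      have h3 := hb1 (P \ B) sdiff_subset (by rw [← hc, h2])
      exact Subset.antisymm hB (sdiff_eq_empty_iff_subset.1 h3)
  refine hQ b c hbc ?_ ?_
  · intro q hq
    have h3 : q ∈ P \ B := hne _ sdiff_subset q (Nat.prime_of_mem_primeFactors hq) (by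
      rw [← hc]
      exact Nat.dvd_of_mem_primeFactors hq)
    rw [mem_sdiff] at h3
    rw [← lg_eq_zero, hb, hlg B hB q h3.1 h3.2, h1 q h3.1]
  · intro q hq
    have h3 : q ∈ B := hne _ hB q (Nat.prime_of_mem_primeFactors hq) (by
      rw [← hb]
      exact Nat.dvd_of_mem_primeFactors hq)
    have h4 : q ∉ P \ B := fun h5 => (mem_sdiff.1 h5).2 h3
    rw [← lg_eq_zero, hc, hlg _ sdiff_subset q (hB h3) h4]
    have h5 := col_MB h (hB h3)
    rw [← sum_sdiff hB, h1 q (hB h3), add_zero] at h5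
    exact h5

/-- The rows of `MC` are independent. -/
lemma left_MC (h : HQ P) {n : ℕ} (hn : ∏ p ∈ P, p = n) (hQ : Qc n) {B : Finset ℕ} (hB : B ⊆ P)
    (hk : ∀ q ∈ P, ∑ p ∈ B, MC P p q = 0) : B = ∅ := by
  have h1 : ∀ q ∈ P, ∑ p ∈ B, MB P p q + (∑ p ∈ B, ee p) * ee q = 0 := by
    intro q hq
    rw [← hk q hq, sum_mul, ← sum_add_distrib]
    exact sum_congr rfl fun p hp => (MC_eq h (hB hp) hq).symm
  rcases z2_cases (∑ p ∈ B, ee p) with h2 | h2
  · have h3 : ∀ q ∈ P, ∑ p ∈ B, MB P p q = 0 := by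
      intro q hq
      have := h1 q hq
      rwa [h2, zero_mul, add_zero] at this
    rcases left_MB h hn hQ hB h3 with h4 | h4
    · exact h4
    · rw [h4, h.sum] at h2
      exact absurd h2 one_ne_zero
  · exfalso
    have h3 : ∑ q ∈ P, (∑ p ∈ B, MB P p q + (∑ p ∈ B, ee p) * ee q) = 0 := sum_eq_zero h1
    rw [sum_add_distrib, ← mul_sum, h2, h.sum, sum_comm,
      sum_eq_zero fun p hp => row_MB (hB hp)] at h3
    simp at h3

/-- The condition at one prime in terms of the matrix. -/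
lemma CI_iff (h : HQ P) {J : Finset ℕ} (hJ : J ⊆ P) {e : ℤ} {p : ℕ} (hp : p ∈ P)
    (he : ¬ (p : ℤ) ∣ e) :
    ((p ∉ J → IsSquare ((e * ∏ q ∈ J, (q : ℤ) : ℤ) : ZMod p)) ∧
      (p ∈ J → IsSquare
        ((-(∏ q ∈ P.erase p, (q : ℤ)) * (e * ∏ q ∈ J.erase p, (q : ℤ)) : ℤ) : ZMod p)))
      ↔ ∑ q ∈ J, MC P p q = lg e p := by
  have hpp := h.pr p hp
  have hpi := Nat.prime_iff_prime_int.1 hpp
  have hst : ∀ q ∈ J.erase p, ¬ (p : ℤ) ∣ (q : ℤ) := fun q hq =>
    not_dvd_nat hpp (h.pr q (hJ (mem_of_mem_erase hq))) (ne_of_mem_erase hq).symm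
  have hst' : ∀ q ∈ P.erase p, ¬ (p : ℤ) ∣ (q : ℤ) := fun q hq =>
    not_dvd_nat hpp (h.pr q (mem_of_mem_erase hq)) (ne_of_mem_erase hq).symm
  have hz : ∀ x y : ZMod 2, x + y = 0 ↔ y = x := by decide
  rw [sum_MC J p hJ]
  by_cases hpJ : p ∈ J
  · rw [if_pos hpJ]
    have h4 : (-(∏ q ∈ P.erase p, (q : ℤ)) * (e * ∏ q ∈ J.erase p, (q : ℤ)) : ℤ) =
        e * (-1 * ((∏ q ∈ P.erase p, (q : ℤ)) * (∏ q ∈ J.erase p, (q : ℤ)))) := by ring
    have h5 : ¬ (p : ℤ) ∣ (∏ q ∈ P.erase p, (q : ℤ)) * ∏ q ∈ J.erase p, (q : ℤ) := fun h6 =>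
      (hpi.dvd_or_dvd h6).elim (not_dvd_prod hpp _ _ hst') (not_dvd_prod hpp _ _ hst)
    have h6 : ¬ (p : ℤ) ∣ -1 * ((∏ q ∈ P.erase p, (q : ℤ)) * ∏ q ∈ J.erase p, (q : ℤ)) :=
      fun h6 => (hpi.dvd_or_dvd h6).elim (not_dvd_neg_one hpp) h5
    have h8 : ¬ (p : ℤ) ∣ e * (-1 * ((∏ q ∈ P.erase p, (q : ℤ)) * ∏ q ∈ J.erase p, (q : ℤ))) :=
      fun h8 => (hpi.dvd_or_dvd h8).elim he h6
    rw [h4, isSquare_iff hpp h8, lg_mul hpp he h6, lg_mul hpp (not_dvd_neg_one hpp) h5,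
      lg_mul hpp (not_dvd_prod hpp _ _ hst') (not_dvd_prod hpp _ _ hst),
      lg_prod hpp _ _ hst', lg_prod hpp _ _ hst, lg_neg_one (h.odd p hp), hz]
    constructor
    · intro h9
      rw [← h9.2 hpJ]
      ring
    · intro h9
      refine ⟨fun h' => absurd hpJ h', fun _ => ?_⟩
      rw [← h9]
      ring
  · rw [if_neg hpJ, add_zero]
    rw [erase_eq_of_notMem hpJ] at hst ⊢
    have h5 : ¬ (p : ℤ) ∣ e * ∏ q ∈ J, (q : ℤ) := fun h6 =>
      (hpi.dvd_or_dvd h6).elim he (not_dvd_prod hpp _ _ hst)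
    rw [isSquare_iff hpp h5, lg_mul hpp he (not_dvd_prod hpp _ _ hst), lg_prod hpp _ _ hst, hz]
    exact ⟨fun h8 => h8.1 hpJ, fun h8 => ⟨fun _ => h8, fun h' => absurd h' hpJ⟩⟩

/-- An affine system has at most as many solutions as the homogeneous one. -/
lemma affine {V : Type} [Fintype V] (R : Finset V) (M : V → V → ZMod 2) (c : V → ZMod 2) :
    (univ.filter fun s : V → ZMod 2 => ∀ p ∈ R, ∑ q, M p q * s q = c p).card ≤
      (univ.filter fun s : V → ZMod 2 => ∀ p ∈ R, ∑ q, M p q * s q = 0).card := by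
  rcases (univ.filter fun s : V → ZMod 2 => ∀ p ∈ R, ∑ q, M p q * s q = c p).eq_empty_or_nonempty
    with h | ⟨t, ht⟩
  · rw [h, card_empty]
    exact Nat.zero_le _
  · rw [mem_filter] at ht
    refine card_le_card_of_injOn (fun s => s + t) ?_ (fun _ _ _ _ h => add_right_cancel h)
    intro s hs
    rw [mem_coe, mem_filter] at hs ⊢
    refine ⟨mem_univ _, fun p hp => ?_⟩
    have h1 : ∀ q, M p q * (s + t) q = M p q * s q + M p q * t q := fun q => by
      rw [Pi.add_apply, mul_add]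
    rw [sum_congr rfl fun q _ => h1 q, sum_add_distrib, hs.2 p hp, ht.2 p hp, z2_self]

/-- The number of the sets. -/
theorem card_CI (h : HQ P) {n : ℕ} (hn : ∏ p ∈ P, p = n) (hQ : Qc n) {R : Finset ℕ} {e : ℤ}
    (hR : R ⊆ P) (he : ∀ p ∈ R, ¬ (p : ℤ) ∣ e) :
    (P.powerset.filter fun J => CI e P R J).card ≤ 2 ^ (P \ R).card := by
  obtain ⟨R', hR'⟩ : ∃ R' : Finset P, R' = univ.filter fun p : P => (p : ℕ) ∈ R := ⟨_, rfl⟩
  have hmem : ∀ p : P, p ∈ R' ↔ (p : ℕ) ∈ R := fun p => by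
    rw [hR', mem_filter]
    exact ⟨fun h => h.2, fun h => ⟨mem_univ _, h⟩⟩
  have hcard : R'.card = R.card := by
    refine card_bij (fun i _ => (i : ℕ)) ?_ ?_ ?_
    · intro i hi
      exact (hmem i).1 hi
    · intro i _ j _ h
      exact Subtype.ext h
    · intro p hp
      exact ⟨⟨p, hR hp⟩, (hmem _).2 hp, rfl⟩
  have h1 := count (V := P) R' (fun p q => MC P p q) (by
    intro x hx hs p
    obtain ⟨B, hB, hBP⟩ := exists_B x
    have h2 : B = ∅ := left_MC h hn hQ hBP (fun q hq => by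
      rw [← sum_sub x (fun p => MC P p q) hB hBP]
      exact hs ⟨q, hq⟩)
    rcases z2_cases (x p) with h3 | h3
    · exact h3
    · have h4 := (hB p).2 h3
      rw [h2] at h4
      exact absurd h4 (notMem_empty _))
  obtain ⟨D, hD⟩ : ∃ D : (P → ZMod 2) → Prop, D = fun s : P → ZMod 2 =>
      ∀ p ∈ R', ∑ q : P, MC P p q * s q = lg e p := ⟨_, rfl⟩
  obtain ⟨D0, hD0⟩ : ∃ D : (P → ZMod 2) → Prop, D = fun s : P → ZMod 2 =>
      ∀ p ∈ R', ∑ q : P, MC P p q * s q = 0 := ⟨_, rfl⟩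
  have h1' : (univ.filter fun s : P → ZMod 2 => D0 s).card * 2 ^ R'.card =
      2 ^ Fintype.card P := by
    rw [← h1]
    refine congrArg (fun k => k * 2 ^ R'.card) (cardeq fun s => ?_)
    rw [hD0]
  have h2 : (univ.filter fun s : P → ZMod 2 => D s).card ≤
      (univ.filter fun s : P → ZMod 2 => D0 s).card := by
    have h2a := affine (V := P) R' (fun p q => MC P p q) (fun p => lg e p)
    refine le_trans (le_of_eq ?_) (le_trans h2a (le_of_eq ?_))
    · refine cardeq fun s => ?_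
      rw [hD]
    · refine cardeq fun s => ?_
      rw [hD0]
  have h3 : (P.powerset.filter fun J => CI e P R J).card =
      (univ.filter fun s : P → ZMod 2 => D s).card := by
    refine card_sets P (fun J => CI e P R J) D fun J hJ => ?_
    rw [hD]
    have h3 : ∀ p : ℕ, ∑ q : P, MC P p q * (if (q : ℕ) ∈ J then (1 : ZMod 2) else 0) =
        ∑ q ∈ J, MC P p q := by
      intro p
      rw [← sum_sub (fun q : P => if (q : ℕ) ∈ J then (1 : ZMod 2) else 0) (fun q => MC P p q)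
        (fun q => by
          by_cases h4 : (q : ℕ) ∈ J
          · simp [h4]
          · simp [h4]) hJ]
      exact sum_congr rfl fun q _ => mul_comm _ _
    constructor
    · intro h4 p hp
      rw [h3]
      exact (CI_iff h hJ p.2 (he p ((hmem p).1 hp))).1 (h4 p ((hmem p).1 hp))
    · intro h4 p hp
      refine (CI_iff h hJ (hR hp) (he p hp)).2 ?_
      rw [← h3]
      exact h4 ⟨p, hR hp⟩ ((hmem _).2 hp)
  rw [h3]
  refine h2.trans ?_
  rw [hcard, Fintype.card_coe] at h1'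
  have h5 : (P \ R).card + R.card = P.card := card_sdiff_add_card_eq_card hR
  rw [← h5, pow_add] at h1'
  exact (Nat.eq_of_mul_eq_mul_right (Nat.two_pow_pos _) h1').le

lemma hq_of {n : ℕ} (hsq : Squarefree n) (h4 : n % 4 = 3) :
    HQ n.primeFactors ∧ ∏ p ∈ n.primeFactors, p = n := by
  have hprod : ∏ p ∈ n.primeFactors, p = n := Nat.prod_primeFactors_of_squarefree hsq
  have hodd : ∀ p ∈ n.primeFactors, p % 2 = 1 := by
    intro p hp
    rcases (Nat.prime_of_mem_primeFactors hp).eq_two_or_odd with h | h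
    · exfalso
      have h1 := Nat.dvd_of_mem_primeFactors hp
      rw [h] at h1
      omega
    · exact h
  refine ⟨⟨fun p hp => Nat.prime_of_mem_primeFactors hp, hodd, ?_⟩, hprod⟩
  have h1 : ∀ J : Finset ℕ, (∀ p ∈ J, p % 2 = 1) →
      (∑ q ∈ J, ee q = 0 ∧ (∏ q ∈ J, q) % 4 = 1) ∨
      (∑ q ∈ J, ee q = 1 ∧ (∏ q ∈ J, q) % 4 = 3) := by
    intro J
    induction J using Finset.induction_on with
    | empty =>
      intro _
      left
      rw [sum_empty, prod_empty]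
      exact ⟨rfl, rfl⟩
    | insert a J ha ih =>
      intro h2
      have h3 := ih fun p hp => h2 p (mem_insert_of_mem hp)
      have h4 := h2 a (mem_insert_self _ _)
      rw [sum_insert ha, prod_insert ha]
      have h5 : a % 4 = 1 ∨ a % 4 = 3 := by omega
      rcases h3 with ⟨h3, h6⟩ | ⟨h3, h6⟩ <;> rcases h5 with h5 | h5
      · left
        rw [h3, ee, if_pos h5, Nat.mul_mod, h5, h6]
        exact ⟨rfl, rfl⟩
      · right
        rw [h3, ee, if_neg (by omega), Nat.mul_mod, h5, h6]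
        exact ⟨rfl, rfl⟩
      · right
        rw [h3, ee, if_pos h5, Nat.mul_mod, h5, h6]
        exact ⟨rfl, rfl⟩
      · left
        rw [h3, ee, if_neg (by omega), Nat.mul_mod, h5, h6]
        exact ⟨rfl, rfl⟩
  rcases h1 _ hodd with h2 | h2
  · rw [hprod] at h2
    omega
  · exact h2.1

/-- **IL-IU** -/
theorem t_IU : S_IU := by
  intro n hsq h8 hQ R e hR he
  obtain ⟨h, hn⟩ := hq_of hsq (show n % 4 = 3 by omega)
  refine (card_CI h hn hQ hR he).trans ?_
  exact Nat.pow_le_pow_right (by norm_num) (Nat.le_succ _)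

end Pool.Agent.N371.IL
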